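import Mathlib
import Pool.Agent.Lib.PRG.Main

/-!
# MP_fafec5: planar r-graphs with at most three odd faces are r-edge-colourable

Every connected `r`-graph which is embedded in the sphere such that at most three faces have odd
length has a partition of its edge set into `r` perfect matchings, for every `r`.
-/

set_option autoImplicit false

namespace Pool.Agent.Results.MP_fafec5_co.FewOddFaces

open Pool.Agent.MP_fafec5_co

theorem result {V E F : Type} [Fintype V] [Fintype E] [Fintype F] [DecidableEq V] [DecidableEq F]
    (src tgt : E → V) (r : ℕ) (hG : IsRGraph src tgt r) (M : SphereMap src tgt F)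
    (hodd : (Finset.univ.filter fun f => Odd (M.length f)).card ≤ 3) :
    ∃ c : E → Fin r, MatchingPartition src tgt c := by
  classical
  exact M.exists_colouring hG hodd

end Pool.Agent.Results.MP_fafec5_co.FewOddFaces
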