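import Mathlib
import Pool.Agent.Lib.MP_fafec5_co.Main

/-!
# MP_fafec5: r-graphs that are bipartite up to two vertices are r-edge-colourable

Every `r`-graph `G` (loopless multigraph, even number of vertices, `r`-regular, every odd cut has at
least `r` edges) with two vertices `u`, `v` such that `G - {u, v}` is bipartite has a partition of
its edge set into `r` perfect matchings.  (Planarity is not needed.  The Petersen graph becomes
bipartite after deleting three vertices, so `two` cannot be replaced by `three`.)
-/

set_option autoImplicit false

namespace Pool.Agent.Results.MP_fafec5_co.TwoVertexTransversal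

open Pool.Agent.MP_fafec5_co

theorem result {V E : Type} [Fintype V] [Fintype E] [DecidableEq V] (src tgt : E → V) (r : ℕ)
    (hG : IsRGraph src tgt r) (u v : V) (huv : u ≠ v) (side : Set V)
    (hside : ∀ e, src e ≠ u → src e ≠ v → tgt e ≠ u → tgt e ≠ v →
      (src e ∈ side ↔ tgt e ∉ side)) :
    ∃ c : E → Fin r, MatchingPartition src tgt c := by
  classical
  exact exists_partition hG huv side hside

end Pool.Agent.Results.MP_fafec5_co.TwoVertexTransversal
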